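import Pool.Agent.MP_c1dca2_ag.SC4.X1

/-!
# [SUU-U1] A sieve in arbitrary large boxes

Counting integer vectors in a box `∏ [u i, u i + N i)` with classes outside of large sets modulo
the squares of infinitely many primes: upper Banach density zero.
-/

set_option autoImplicit false

open Filter Topology

namespace SUU

/-- An interval of `L` consecutive integers has at most `L / M + 1` elements of a class. -/
theorem class_count (M : ℕ) (hM : 0 < M) (u : ℤ) (L : ℕ) (a : ZMod M) :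
    (((Finset.Ico u (u + L)).filter (fun x : ℤ => (x : ZMod M) = a)).card : ℝ) ≤ L / M + 1 := by
  classical
  have : NeZero M := ⟨hM.ne'⟩
  have hset : (Finset.Ico u (u + L)).filter (fun x : ℤ => (x : ZMod M) = a) =
      (Finset.Ico u (u + L)).filter (fun x : ℤ => x ≡ (a.val : ℤ) [ZMOD M]) := by
    ext x
    simp only [Finset.mem_filter, Finset.mem_Ico]
    have h1 : ((x : ZMod M) = a) ↔ x ≡ (a.val : ℤ) [ZMOD M] := by
      rw [← ZMod.intCast_eq_intCast_iff]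
      simp
    rw [h1]
  rw [hset]
  have hM' : (0 : ℤ) < (M : ℤ) := by exact_mod_cast hM
  have hc := Int.Ico_filter_modEq_card u (u + L) hM' (a.val : ℤ)
  set F := (Finset.Ico u (u + L)).filter (fun x : ℤ => x ≡ (a.val : ℤ) [ZMOD M]) with hF
  have hMq : (0 : ℚ) < (M : ℚ) := by exact_mod_cast hM
  have h5 : ((F.card : ℤ) : ℚ) ≤ L / M + 1 := by
    rw [hc]
    push_cast
    apply max_le
    · have h6 := Int.ceil_lt_add_one (((u + L : ℤ) - ((a.val : ℤ)) : ℚ) / ((M : ℤ) : ℚ))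
      have h7 := Int.le_ceil (((u : ℤ) - ((a.val : ℤ)) : ℚ) / ((M : ℤ) : ℚ))
      push_cast at h6 h7
      have h8 : ((L : ℚ)) / M = ((u : ℚ) + L - a.val) / M - ((u : ℚ) - a.val) / M := by
        field_simp
        ring
      rw [h8]
      linarith
    · positivity
  have h9 : ((F.card : ℚ)) ≤ L / M + 1 := by exact_mod_cast h5
  have h10 : (((F.card : ℚ)) : ℝ) ≤ ((L / M + 1 : ℚ) : ℝ) := by exact_mod_cast h9
  push_cast at h10
  exact h10

theorem box_count {ι : Type} [Fintype ι] (M : ℕ) (hM : 0 < M) (A : Set (ι → ZMod M))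
    (u : ι → ℤ) (N : ι → ℕ) :
    (Nat.card {c : ι → ℤ // (∀ i, u i ≤ c i ∧ c i < u i + N i) ∧
      (fun i => (c i : ZMod M)) ∈ A} : ℝ) ≤ Nat.card A * ∏ i, ((N i : ℝ) / M + 1) := by
  classical
  have : NeZero M := ⟨hM.ne'⟩
  have : Fintype A := Fintype.ofFinite A
  let s : (ι → ZMod M) → Finset (ι → ℤ) := fun a =>
    Fintype.piFinset (fun i => (Finset.Ico (u i) (u i + N i)).filter
      (fun x : ℤ => (x : ZMod M) = a i))
  have h1 : Nat.card {c : ι → ℤ // (∀ i, u i ≤ c i ∧ c i < u i + N i) ∧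
      (fun i => (c i : ZMod M)) ∈ A} ≤ (A.toFinset.biUnion s).card := by
    have h2 : {c : ι → ℤ | (∀ i, u i ≤ c i ∧ c i < u i + N i) ∧
        (fun i => (c i : ZMod M)) ∈ A} ⊆
        ((A.toFinset.biUnion s : Finset (ι → ℤ)) : Set (ι → ℤ)) := by
      intro c hc
      rw [Finset.mem_coe, Finset.mem_biUnion]
      refine ⟨fun i => (c i : ZMod M), by simpa using hc.2, ?_⟩
      simp only [s, Fintype.mem_piFinset, Finset.mem_filter, Finset.mem_Ico, and_true]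
      exact hc.1
    have h3 := Set.ncard_le_ncard h2 (Finset.finite_toSet _)
    rw [Set.ncard_coe_finset] at h3
    exact h3
  have h4 : ((A.toFinset.biUnion s).card : ℝ) ≤
      ∑ a ∈ A.toFinset, ∏ i, ((N i : ℝ) / M + 1) := by
    refine le_trans (Nat.cast_le.2 (Finset.card_biUnion_le (s := A.toFinset) (t := s))) ?_
    push_cast
    refine Finset.sum_le_sum fun a _ => ?_
    simp only [s, Fintype.card_piFinset]
    push_cast
    exact Finset.prod_le_prod (fun i _ => by positivity)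
      (fun i _ => class_count M hM (u i) (N i) (a i))
  calc (Nat.card {c : ι → ℤ // (∀ i, u i ≤ c i ∧ c i < u i + N i) ∧
        (fun i => (c i : ZMod M)) ∈ A} : ℝ)
      ≤ ((A.toFinset.biUnion s).card : ℝ) := by exact_mod_cast h1
    _ ≤ _ := h4
    _ = _ := by
      rw [Finset.sum_const, nsmul_eq_mul, Set.toFinset_card, Nat.card_eq_fintype_card]

/-- The count of `X` in a box, for one finite set of primes. -/
theorem sieve_bound {ι : Type} [Fintype ι] (T : Finset ℕ) (hT : ∀ p ∈ T, p.Prime) (δ : ℝ)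
    (Sp : ∀ p : ℕ, Set (ι → ZMod (p ^ 2)))
    (hS : ∀ p ∈ T, (Nat.card (Sp p) : ℝ) ≤ (1 - δ / p) * ((p : ℝ) ^ 2) ^ (Fintype.card ι))
    (X : Set (ι → ℤ)) (hX : ∀ c ∈ X, ∀ p ∈ T, (fun i => (c i : ZMod (p ^ 2))) ∈ Sp p)
    (u : ι → ℤ) (N : ι → ℕ) :
    (Nat.card {c : ι → ℤ // (∀ i, u i ≤ c i ∧ c i < u i + N i) ∧ c ∈ X} : ℝ) ≤
      Real.exp (-(δ * ∑ p ∈ T, ((p : ℝ))⁻¹)) * ∏ i, ((N i : ℝ) + ((∏ p ∈ T, p ^ 2 : ℕ) : ℝ)) := by
  classical
  set M : ℕ := ∏ p ∈ T, p ^ 2 with hMdef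
  have hM : 0 < M := Finset.prod_pos fun p hp => pow_pos (hT p hp).pos 2
  have : NeZero M := ⟨hM.ne'⟩
  let A : Set (ι → ZMod M) := {c | ∀ p ∈ T, (fun i => ((c i).cast : ZMod (p ^ 2))) ∈ Sp p}
  have hA : Nat.card A = ∏ p ∈ T, Nat.card (Sp p) := SC4.crt_count T hT Sp
  set n := Fintype.card ι with hn
  have hMr : (0 : ℝ) < M := by exact_mod_cast hM
  have hA2 : (Nat.card A : ℝ) ≤ Real.exp (-(δ * ∑ p ∈ T, ((p : ℝ))⁻¹)) * (M : ℝ) ^ n := by
    rw [hA]
    push_cast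
    have h1 : ∀ p ∈ T, (Nat.card (Sp p) : ℝ) ≤
        Real.exp (-(δ * ((p : ℝ))⁻¹)) * ((p : ℝ) ^ 2) ^ n := by
      intro p hp
      refine le_trans (hS p hp) (mul_le_mul_of_nonneg_right ?_ (by positivity))
      have h4 := Real.one_sub_le_exp_neg (δ * ((p : ℝ))⁻¹)
      rw [div_eq_mul_inv]
      exact h4
    calc ∏ p ∈ T, (Nat.card (Sp p) : ℝ) ≤ ∏ p ∈ T, (Real.exp (-(δ * ((p : ℝ))⁻¹)) *
          ((p : ℝ) ^ 2) ^ n) := Finset.prod_le_prod (fun p _ => by positivity) h1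
      _ = Real.exp (-(δ * ∑ p ∈ T, ((p : ℝ))⁻¹)) * (M : ℝ) ^ n := by
        rw [Finset.prod_mul_distrib, ← Real.exp_sum, hMdef]
        congr 1
        · congr 1
          rw [Finset.sum_neg_distrib, Finset.mul_sum]
        · rw [Finset.prod_pow]
          push_cast
          rfl
  have hbox : {c : ι → ℤ | ∀ i, u i ≤ c i ∧ c i < u i + N i}.Finite := by
    refine Set.Finite.subset (Fintype.piFinset
      (fun i : ι => Finset.Ico (u i) (u i + N i))).finite_toSet ?_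
    intro c hc
    simp only [Finset.mem_coe, Fintype.mem_piFinset, Finset.mem_Ico]
    exact hc
  have h6 : Nat.card {c : ι → ℤ // (∀ i, u i ≤ c i ∧ c i < u i + N i) ∧ c ∈ X} ≤
      Nat.card {c : ι → ℤ // (∀ i, u i ≤ c i ∧ c i < u i + N i) ∧
        (fun i => (c i : ZMod M)) ∈ A} := by
    have hfin : {c : ι → ℤ | (∀ i, u i ≤ c i ∧ c i < u i + N i) ∧
        (fun i => (c i : ZMod M)) ∈ A}.Finite := hbox.subset fun c hc => hc.1
    refine Set.ncard_le_ncard (s := {c : ι → ℤ | (∀ i, u i ≤ c i ∧ c i < u i + N i) ∧ c ∈ X})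
      ?_ hfin
    intro c hc
    refine ⟨hc.1, ?_⟩
    intro p hp
    have h7 : (fun i => (((c i : ZMod M)).cast : ZMod (p ^ 2))) =
        (fun i => (c i : ZMod (p ^ 2))) := by
      funext i
      exact ZMod.cast_intCast (Finset.dvd_prod_of_mem (fun p => p ^ 2) hp) (c i)
    show (fun i => (((c i : ZMod M)).cast : ZMod (p ^ 2))) ∈ Sp p
    rw [h7]
    exact hX c hc.2 p hp
  have h8 := box_count M hM A u N
  calc (Nat.card {c : ι → ℤ // (∀ i, u i ≤ c i ∧ c i < u i + N i) ∧ c ∈ X} : ℝ)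
      ≤ (Nat.card {c : ι → ℤ // (∀ i, u i ≤ c i ∧ c i < u i + N i) ∧
          (fun i => (c i : ZMod M)) ∈ A} : ℝ) := by
        exact_mod_cast h6
    _ ≤ Nat.card A * ∏ i, ((N i : ℝ) / M + 1) := h8
    _ ≤ (Real.exp (-(δ * ∑ p ∈ T, ((p : ℝ))⁻¹)) * (M : ℝ) ^ n) * ∏ i, ((N i : ℝ) / M + 1) :=
        mul_le_mul_of_nonneg_right hA2 (Finset.prod_nonneg fun i _ => by positivity)
    _ = Real.exp (-(δ * ∑ p ∈ T, ((p : ℝ))⁻¹)) * ∏ i, ((N i : ℝ) + (M : ℝ)) := by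
        rw [mul_assoc]
        congr 1
        have h9 : (M : ℝ) ^ n = ∏ _i : ι, (M : ℝ) := by
          rw [Finset.prod_const, Finset.card_univ]
        rw [h9, ← Finset.prod_mul_distrib]
        refine Finset.prod_congr rfl fun i _ => ?_
        field_simp

/-- Upper Banach density zero. -/
theorem banach_zero {ι : Type} [Fintype ι] (Q : Set ℕ) (hQ : ∀ p ∈ Q, p.Prime)
    (hsum : ¬ Summable (fun p : Q => ((p : ℕ) : ℝ)⁻¹)) (δ : ℝ) (hδ : 0 < δ)
    (Sp : ∀ p : ℕ, Set (ι → ZMod (p ^ 2)))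
    (hS : ∀ p ∈ Q, (Nat.card (Sp p) : ℝ) ≤ (1 - δ / p) * ((p : ℝ) ^ 2) ^ (Fintype.card ι))
    (X : Set (ι → ℤ)) (hX : ∀ c ∈ X, ∀ p ∈ Q, (fun i => (c i : ZMod (p ^ 2))) ∈ Sp p)
    (ε : ℝ) (hε : 0 < ε) :
    ∃ M : ℕ, ∀ (u : ι → ℤ) (N : ι → ℕ), (∀ i, M ≤ N i) →
      (Nat.card {c : ι → ℤ // (∀ i, u i ≤ c i ∧ c i < u i + N i) ∧ c ∈ X} : ℝ) ≤
        ε * ∏ i, (N i : ℝ) := by
  classical
  set n := Fintype.card ι with hn
  -- choose `T`
  obtain ⟨T, hTQ, hT⟩ : ∃ T : Finset ℕ, (∀ p ∈ T, p ∈ Q) ∧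
      Real.exp (-(δ * ∑ p ∈ T, ((p : ℝ))⁻¹)) < ε / 2 ^ n := by
    by_contra hcon
    push Not at hcon
    apply hsum
    refine summable_of_sum_le (c := -Real.log (ε / 2 ^ n) / δ) (fun p => by positivity) ?_
    intro v
    have h1 := hcon (v.map (Function.Embedding.subtype _)) (by
      intro p hp
      rw [Finset.mem_map] at hp
      obtain ⟨q, _, rfl⟩ := hp
      exact q.2)
    rw [Finset.sum_map] at h1
    have h2 := Real.log_le_log (by positivity) h1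
    rw [Real.log_exp] at h2
    have h3 : ∑ x ∈ v, ((Function.Embedding.subtype (fun x => x ∈ Q) x : ℕ) : ℝ)⁻¹ =
        ∑ x ∈ v, ((x : ℕ) : ℝ)⁻¹ := rfl
    rw [h3] at h2
    rw [le_div_iff₀ hδ]
    linarith
  have hTp : ∀ p ∈ T, p.Prime := fun p hp => hQ p (hTQ p hp)
  refine ⟨∏ p ∈ T, p ^ 2, fun u N hN => ?_⟩
  have h1 := sieve_bound T hTp δ Sp (fun p hp => hS p (hTQ p hp)) X
    (fun c hc p hp => hX c hc p (hTQ p hp)) u N
  refine h1.trans ?_
  have h2 : ∏ i, ((N i : ℝ) + ((∏ p ∈ T, p ^ 2 : ℕ) : ℝ)) ≤ ∏ i, (2 * (N i : ℝ)) := by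
    refine Finset.prod_le_prod (fun i _ => by positivity) fun i _ => ?_
    have : ((∏ p ∈ T, p ^ 2 : ℕ) : ℝ) ≤ (N i : ℝ) := by exact_mod_cast hN i
    linarith
  have h3 : ∏ i, (2 * (N i : ℝ)) = 2 ^ n * ∏ i, (N i : ℝ) := by
    rw [Finset.prod_mul_distrib, Finset.prod_const, Finset.card_univ]
  have h4 : 0 ≤ ∏ i, (N i : ℝ) := Finset.prod_nonneg fun i _ => by positivity
  calc Real.exp (-(δ * ∑ p ∈ T, ((p : ℝ))⁻¹)) * ∏ i, ((N i : ℝ) + ((∏ p ∈ T, p ^ 2 : ℕ) : ℝ))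
      ≤ (ε / 2 ^ n) * (2 ^ n * ∏ i, (N i : ℝ)) := by
        rw [← h3]
        exact mul_le_mul hT.le h2 (Finset.prod_nonneg fun i _ => by positivity) (by positivity)
    _ = ε * ∏ i, (N i : ℝ) := by
        field_simp

end SUU
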