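import Pool.Agent.MP_c1dca2_ag.SC4.X5

/-!
# [SUU-U9] Finitely many elements of a number field are integral at almost all primes
-/

set_option autoImplicit false

open NumberField IsLocalRing Polynomial

namespace SUU

variable {k : Type} [Field k] [NumberField k]

theorem almost_all (T : Finset k) : ∃ B : Set (Ideal (𝓞 k)), B.Finite ∧
    ∀ P : Ideal (𝓞 k), P.IsPrime → P ∉ B → ∀ A : ValuationSubring k, (∀ x : 𝓞 k, (x : k) ∈ A) →
      (∀ x : 𝓞 k, A.valuation (x : k) < 1 ↔ x ∈ P) → ∀ t ∈ T, t ∈ A := by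
  have hN : Algebra.IsAlgebraic ℤ k := SC4.X5_alg k
  obtain ⟨D, hD0, hD⟩ := Algebra.IsAlgebraic.exists_integral_multiples ℤ (A := k) T
  have hD0' : (D : 𝓞 k) ≠ 0 := by exact_mod_cast hD0
  refine ⟨{P | P.IsPrime ∧ (D : 𝓞 k) ∈ P}, SC4.X5_fin _ hD0', ?_⟩
  intro P hP hPB A hA hAP t ht
  have hDP : (D : 𝓞 k) ∉ P := fun h => hPB ⟨hP, h⟩
  have hvD : A.valuation (D : k) = 1 := by
    have h1 : A.valuation ((D : 𝓞 k) : k) ≤ 1 := (A.valuation_le_one_iff _).mpr (hA _)
    have h2 : ¬ A.valuation ((D : 𝓞 k) : k) < 1 := fun h => hDP ((hAP _).mp h)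
    have h3 := le_antisymm h1 (not_lt.mp h2)
    simpa using h3
  have h1 := hD t ht
  rw [zsmul_eq_mul] at h1
  have h2 : (D : k) * t ∈ A := hA ⟨(D : k) * t, h1⟩
  rw [← A.valuation_le_one_iff, map_mul, hvD, one_mul] at h2
  exact (A.valuation_le_one_iff _).mp h2

/-- The coefficients of a polynomial in two variables, of a polynomial, and an element. -/
theorem exists_models (G : k[X][X]) (c₁ : k[X]) (u : k) : ∃ B : Set (Ideal (𝓞 k)), B.Finite ∧
    ∀ P : Ideal (𝓞 k), P.IsPrime → P ∉ B → ∀ A : ValuationSubring k, (∀ x : 𝓞 k, (x : k) ∈ A) →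
      (∀ x : 𝓞 k, A.valuation (x : k) < 1 ↔ x ∈ P) →
      (∃ G' : A[X][X], G'.map (mapRingHom A.subtype) = G) ∧
      (∃ c' : A[X], c'.map A.subtype = c₁) ∧ u ∈ A := by
  classical
  obtain ⟨B, hB, h⟩ := almost_all
    ((G.support.biUnion fun i => (G.coeff i).coeffs) ∪ c₁.coeffs ∪ {u})
  refine ⟨B, hB, fun P hP hPB A hA hAP => ?_⟩
  have hT := h P hP hPB A hA hAP
  refine ⟨?_, ?_, ?_⟩
  · have h1 : G ∈ Polynomial.lifts (mapRingHom A.subtype) := by
      rw [Polynomial.lifts_iff_coeff_lifts]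
      intro i
      by_cases hi : i ∈ G.support
      · obtain ⟨q, hq⟩ := SC4.X5_lift A (G.coeff i) (fun c hc => hT c
          (Finset.mem_union_left _ (Finset.mem_union_left _ (Finset.mem_biUnion.2 ⟨i, hi, hc⟩))))
        exact ⟨q, hq⟩
      · rw [notMem_support_iff.1 hi]
        exact ⟨0, map_zero _⟩
    exact (Polynomial.mem_lifts _).1 h1
  · exact SC4.X5_lift A c₁ (fun c hc => hT c
      (Finset.mem_union_left _ (Finset.mem_union_right _ hc)))
  · exact hT u (Finset.mem_union_right _ (Finset.mem_singleton_self u))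

end SUU
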