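import Pool.Agent.MP_c1dca2_ag.SUU.U3
import Pool.Agent.MP_c1dca2_ag.SC4.X3

/-!
# [SUU-U4] The classes modulo `p^2` which are good at a prime of degree one
-/

set_option autoImplicit false

open Polynomial NumberField

namespace SUU

theorem card_preimage {A B : Type} [AddCommGroup A] [AddCommGroup B] [Finite A] (Φ : A →+ B)
    (hΦ : Function.Surjective Φ) (G : Set B) :
    Nat.card {a : A // Φ a ∈ G} * Nat.card B = Nat.card G * Nat.card A := by
  classical
  obtain ⟨s, hs⟩ := hΦ.hasRightInverse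
  let e : A ≃ B × Φ.ker :=
    { toFun := fun a => (Φ a, ⟨a - s (Φ a), by
        rw [AddMonoidHom.mem_ker, map_sub, hs, sub_self]⟩)
      invFun := fun x => (x.2 : A) + s x.1
      left_inv := fun a => by simp
      right_inv := fun x => by
        have h1 : Φ (x.2 : A) = 0 := x.2.2
        have h2 : Φ ((x.2 : A) + s x.1) = x.1 := by rw [map_add, h1, zero_add, hs]
        apply Prod.ext
        · exact h2
        · apply Subtype.ext
          show (x.2 : A) + s x.1 - s (Φ ((x.2 : A) + s x.1)) = x.2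
          rw [h2, add_sub_cancel_right] }
  have h1 : Nat.card A = Nat.card B * Nat.card Φ.ker := by
    rw [Nat.card_congr e, Nat.card_prod]
  have h2 : Nat.card {a : A // Φ a ∈ G} = Nat.card G * Nat.card Φ.ker := by
    rw [← Nat.card_prod]
    refine Nat.card_congr
      { toFun := fun a => (⟨Φ a.1, a.2⟩, (e a.1).2)
        invFun := fun x => ⟨e.symm (x.1.1, x.2), by
          have h3 : (e (e.symm (x.1.1, x.2))).1 = Φ (e.symm (x.1.1, x.2)) := rfl
          rw [← h3, Equiv.apply_symm_apply]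
          exact x.1.2⟩
        left_inv := fun a => by
          apply Subtype.ext
          show e.symm (Φ a.1, (e a.1).2) = a.1
          have h3 : (Φ a.1, (e a.1).2) = e a.1 := rfl
          rw [h3, Equiv.symm_apply_apply]
        right_inv := fun x => by
          have h3 : e (e.symm (x.1.1, x.2)) = (x.1.1, x.2) := Equiv.apply_symm_apply _ _
          apply Prod.ext
          · apply Subtype.ext
            exact congrArg Prod.fst h3
          · exact (congrArg Prod.snd h3 : (e (e.symm (x.1.1, x.2))).2 = x.2) }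
  rw [h1, h2]
  ring

/-- The index set of the coordinates of `(a, f_1, …, f_r)`. -/
abbrev Idx {r : Type} (n : r → ℕ) (ι : Type) : Type := Option (Σ i : r, Fin (n i)) × ι

variable {k : Type} [Field k] [NumberField k] {ι : Type} [Fintype ι]
  (b : Module.Basis ι ℤ (𝓞 k)) {r : Type} [Fintype r] {n : r → ℕ}

/-- The algebraic integer `a`. -/
noncomputable def aOf (z : Idx n ι → ℤ) : 𝓞 k := ∑ u, z (none, u) • b u

/-- The coefficients of the polynomials `f_i`. -/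
noncomputable def cOf (z : Idx n ι → ℤ) (i : r) (j : Fin (n i)) : 𝓞 k :=
  ∑ u, z (some ⟨i, j⟩, u) • b u

/-- What is required at the prime `P`: `a` is exactly divisible by `P`, and the classes of the
coefficients are in `S`. -/
def GoodZ (P : Ideal (𝓞 k)) (S : Set ((i : r) → Fin (n i) → 𝓞 k ⧸ P)) (z : Idx n ι → ℤ) : Prop :=
  aOf b z ∈ P ∧ aOf b z ∉ P ^ 2 ∧ (fun i j => Ideal.Quotient.mk P (cOf b z i j)) ∈ S

theorem card_P2 (p : ℕ) (P : Ideal (𝓞 k)) (hP : Ideal.absNorm P = p) :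
    Nat.card (𝓞 k ⧸ P ^ 2) = p ^ 2 := by
  rw [← Submodule.cardQuot_apply, ← Ideal.absNorm_apply, map_pow, hP]

theorem card_P (p : ℕ) (P : Ideal (𝓞 k)) (hP : Ideal.absNorm P = p) :
    Nat.card (𝓞 k ⧸ P) = p := by
  rw [← Submodule.cardQuot_apply, ← Ideal.absNorm_apply, hP]

theorem card_nonzero (p : ℕ) (hp : p.Prime) (P : Ideal (𝓞 k)) (hP : Ideal.absNorm P = p) :
    Nat.card {α : 𝓞 k ⧸ P ^ 2 //
      Ideal.Quotient.factor (Ideal.pow_le_self (I := P) two_ne_zero) α = 0 ∧ α ≠ 0} = p - 1 := by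
  classical
  have hf : Finite (𝓞 k ⧸ P ^ 2) := by
    apply Nat.finite_of_card_ne_zero
    rw [card_P2 p P hP]
    exact pow_ne_zero 2 hp.ne_zero
  have hs : Function.Surjective
      (Ideal.Quotient.factor (Ideal.pow_le_self (I := P) two_ne_zero)).toAddMonoidHom :=
    Ideal.Quotient.factor_surjective (Ideal.pow_le_self (I := P) two_ne_zero)
  have h1 := card_preimage
    (Ideal.Quotient.factor (Ideal.pow_le_self (I := P) two_ne_zero)).toAddMonoidHom hs {0}
  rw [card_P p P hP, card_P2 p P hP] at h1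
  have h2 : Nat.card ({0} : Set (𝓞 k ⧸ P)) = 1 := by simp
  rw [h2, one_mul, show p ^ 2 = p * p from pow_two p] at h1
  have h3 := Nat.eq_of_mul_eq_mul_right hp.pos h1
  have h4 : {α : 𝓞 k ⧸ P ^ 2 | Ideal.Quotient.factor (Ideal.pow_le_self (I := P) two_ne_zero) α = 0
      ∧ α ≠ 0} = {α : 𝓞 k ⧸ P ^ 2 |
        Ideal.Quotient.factor (Ideal.pow_le_self (I := P) two_ne_zero) α = 0} \ {0} := by
    ext α
    simp
  have h5 : ({α : 𝓞 k ⧸ P ^ 2 |
        Ideal.Quotient.factor (Ideal.pow_le_self (I := P) two_ne_zero) α = 0} \ {0}).ncard + 1 =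
      ({α : 𝓞 k ⧸ P ^ 2 |
        Ideal.Quotient.factor (Ideal.pow_le_self (I := P) two_ne_zero) α = 0}).ncard :=
    Set.ncard_sdiff_singleton_add_one (map_zero _)
  have h6 : ({α : 𝓞 k ⧸ P ^ 2 |
        Ideal.Quotient.factor (Ideal.pow_le_self (I := P) two_ne_zero) α = 0}).ncard = p := h3
  have h7 : Nat.card {α : 𝓞 k ⧸ P ^ 2 //
      Ideal.Quotient.factor (Ideal.pow_le_self (I := P) two_ne_zero) α = 0 ∧ α ≠ 0} =
      ({α : 𝓞 k ⧸ P ^ 2 | Ideal.Quotient.factor (Ideal.pow_le_self (I := P) two_ne_zero) α = 0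
      ∧ α ≠ 0}).ncard := rfl
  rw [h7, h4]
  omega

theorem exists_class (δ : ℝ) (p : ℕ) (hp : p.Prime) (P : Ideal (𝓞 k))
    (hP : Ideal.absNorm P = p) (S : Set ((i : r) → Fin (n i) → 𝓞 k ⧸ P))
    (hT : δ * ((p : ℝ) ^ ∑ i, n i) ≤ Nat.card S) :
    ∃ A : Set (Idx n ι → ZMod (p ^ 2)),
      (Nat.card A : ℝ) ≤ (1 - (δ / 2) / p) * ((p : ℝ) ^ 2) ^ (Fintype.card (Idx n ι)) ∧
      ∀ z : Idx n ι → ℤ, ¬ GoodZ b P S z → (fun x => (z x : ZMod (p ^ 2))) ∈ A := by
  classical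
  by_cases hδ : δ < 0
  · -- trivial
    refine ⟨Set.univ, ?_, fun z _ => Set.mem_univ _⟩
    have : NeZero (p ^ 2) := ⟨pow_ne_zero 2 hp.ne_zero⟩
    have h1 : Nat.card (Set.univ : Set (Idx n ι → ZMod (p ^ 2))) =
        (p ^ 2) ^ Fintype.card (Idx n ι) := by
      rw [Nat.card_univ, Nat.card_eq_fintype_card, Fintype.card_fun, ZMod.card]
    rw [h1]
    push_cast
    have h2 : (1 : ℝ) ≤ 1 - (δ / 2) / p := by
      have : (δ / 2) / p ≤ 0 := div_nonpos_of_nonpos_of_nonneg (by linarith) (by positivity)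
      linarith
    nlinarith [show (0 : ℝ) ≤ ((p : ℝ) ^ 2) ^ (Fintype.card (Idx n ι)) by positivity]
  push Not at hδ
  have : NeZero (p ^ 2) := ⟨pow_ne_zero 2 hp.ne_zero⟩
  have hpP : ((p : ℕ) : 𝓞 k) ∈ P := by
    have := Ideal.absNorm_mem P
    rwa [hP] at this
  have h1 : (((p ^ 2 : ℕ)) : 𝓞 k) ∈ P := by
    rw [Nat.cast_pow]
    exact Ideal.pow_mem_of_mem P hpP 2 (by norm_num)
  have h2 : (((p ^ 2 : ℕ)) : 𝓞 k) ∈ P ^ 2 := by
    rw [Nat.cast_pow]
    exact Ideal.pow_mem_pow hpP 2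
  obtain ⟨φ₁, hφ₁, hs₁⟩ := SC4.X3_hom b (p ^ 2) P h1
  obtain ⟨φ₂, hφ₂, hs₂⟩ := SC4.X3_hom b (p ^ 2) (P ^ 2) h2
  let Ψ : (Idx n ι → ZMod (p ^ 2)) →+ (𝓞 k ⧸ P ^ 2) × ((i : r) → Fin (n i) → 𝓞 k ⧸ P) :=
    { toFun := fun x => (φ₂ (fun u => x (none, u)), fun i j => φ₁ (fun u => x (some ⟨i, j⟩, u)))
      map_zero' := by
        apply Prod.ext
        · exact map_zero φ₂
        · funext i j
          exact map_zero φ₁
      map_add' := fun x y => by
        apply Prod.ext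
        · exact map_add φ₂ _ _
        · funext i j
          exact map_add φ₁ _ _ }
  have hΨs : Function.Surjective Ψ := by
    rintro ⟨α, g⟩
    obtain ⟨x₀, hx₀⟩ := hs₂ α
    choose x hx using fun (i : r) (j : Fin (n i)) => hs₁ (g i j)
    refine ⟨fun s => match s with
      | (none, u) => x₀ u
      | (some ⟨i, j⟩, u) => x i j u, ?_⟩
    apply Prod.ext
    · exact hx₀
    · funext i j
      exact hx i j
  have hΨ : ∀ z : Idx n ι → ℤ, Ψ (fun x => (z x : ZMod (p ^ 2))) =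
      (Ideal.Quotient.mk (P ^ 2) (aOf b z), fun i j => Ideal.Quotient.mk P (cOf b z i j)) := by
    intro z
    apply Prod.ext
    · exact hφ₂ (fun u => z (none, u))
    · funext i j
      exact hφ₁ (fun u => z (some ⟨i, j⟩, u))
  let G : Set ((𝓞 k ⧸ P ^ 2) × ((i : r) → Fin (n i) → 𝓞 k ⧸ P)) :=
    {x | (Ideal.Quotient.factor (Ideal.pow_le_self (I := P) two_ne_zero) x.1 = 0 ∧ x.1 ≠ 0) ∧
      x.2 ∈ S}
  have hG : Nat.card G = (p - 1) * Nat.card S := by
    rw [← card_nonzero p hp P hP, ← Nat.card_prod]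
    exact Nat.card_congr
      { toFun := fun x => (⟨x.1.1, x.2.1⟩, ⟨x.1.2, x.2.2⟩)
        invFun := fun x => ⟨(x.1.1, x.2.1), x.1.2, x.2.2⟩
        left_inv := fun _ => rfl
        right_inv := fun _ => rfl }
  have hfinP : Finite (𝓞 k ⧸ P) := by
    apply Nat.finite_of_card_ne_zero
    rw [card_P p P hP]
    exact hp.ne_zero
  have hB : Nat.card ((𝓞 k ⧸ P ^ 2) × ((i : r) → Fin (n i) → 𝓞 k ⧸ P)) =
      p ^ 2 * p ^ ∑ i, n i := by
    rw [Nat.card_prod, card_P2 p P hP, Nat.card_pi, ← Finset.prod_pow_eq_pow_sum]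
    congr 1
    refine Finset.prod_congr rfl fun i _ => ?_
    rw [Nat.card_fun, Nat.card_eq_fintype_card (α := Fin (n i)), Fintype.card_fin,
      card_P p P hP]
  have hA : Nat.card (Idx n ι → ZMod (p ^ 2)) = (p ^ 2) ^ Fintype.card (Idx n ι) := by
    rw [Nat.card_eq_fintype_card, Fintype.card_fun, ZMod.card]
  have hpre := card_preimage Ψ hΨs G
  rw [hB, hA, hG] at hpre
  refine ⟨{x | Ψ x ∈ G}ᶜ, ?_, ?_⟩
  · set g : ℕ := Nat.card {a : Idx n ι → ZMod (p ^ 2) // Ψ a ∈ G} with hg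
    set D : ℕ := ∑ i, n i with hD
    set W : ℕ := Fintype.card (Idx n ι) with hW
    have e1 : Nat.card (({x | Ψ x ∈ G}ᶜ : Set (Idx n ι → ZMod (p ^ 2)))) + g = (p ^ 2) ^ W := by
      rw [← hA]
      have := Set.ncard_add_ncard_compl ({x | Ψ x ∈ G} : Set (Idx n ι → ZMod (p ^ 2)))
      rw [add_comm]
      exact this
    have hp2 : (2 : ℝ) ≤ p := by exact_mod_cast hp.two_le
    have e1r : (Nat.card (({x | Ψ x ∈ G}ᶜ : Set (Idx n ι → ZMod (p ^ 2)))) : ℝ) + g =
        ((p : ℝ) ^ 2) ^ W := by exact_mod_cast e1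
    have e2 : (g : ℝ) * ((p : ℝ) ^ 2 * (p : ℝ) ^ D) = ((p : ℝ) - 1) *
        (Nat.card S : ℝ) *
          ((p : ℝ) ^ 2) ^ W := by
      have h3 : ((p - 1 : ℕ) : ℝ) = (p : ℝ) - 1 := by
        rw [Nat.cast_sub hp.one_le, Nat.cast_one]
      rw [← h3]
      exact_mod_cast hpre
    have e3 : ((δ / 2) / p) * ((p : ℝ) ^ 2) ^ W ≤ g := by
      have hpos : (0 : ℝ) < (p : ℝ) ^ 2 * (p : ℝ) ^ D := by positivity
      have h4 : (g : ℝ) = ((p : ℝ) - 1) *
        (Nat.card S : ℝ) *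
          ((p : ℝ) ^ 2) ^ W / ((p : ℝ) ^ 2 * (p : ℝ) ^ D) := by
        rw [eq_div_iff hpos.ne']
        exact e2
      rw [h4, le_div_iff₀ hpos]
      have h5 : ((p : ℝ) - 1) * (δ * (p : ℝ) ^ D) * ((p : ℝ) ^ 2) ^ W ≤ ((p : ℝ) - 1) *
        (Nat.card S : ℝ) *
          ((p : ℝ) ^ 2) ^ W := by
        refine mul_le_mul_of_nonneg_right ?_ (by positivity)
        exact mul_le_mul_of_nonneg_left hT (by linarith)
      refine le_trans ?_ h5
      have h6 : ((δ / 2) / p) * ((p : ℝ) ^ 2) ^ W * ((p : ℝ) ^ 2 * (p : ℝ) ^ D) =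
          (p / 2) * (δ * (p : ℝ) ^ D * ((p : ℝ) ^ 2) ^ W) := by
        have : (p : ℝ) ≠ 0 := by linarith
        field_simp
      have h7 : ((p : ℝ) - 1) * (δ * (p : ℝ) ^ D) * ((p : ℝ) ^ 2) ^ W =
          ((p : ℝ) - 1) * (δ * (p : ℝ) ^ D * ((p : ℝ) ^ 2) ^ W) := by ring
      rw [h6, h7]
      exact mul_le_mul_of_nonneg_right (by linarith) (by positivity)
    linarith
  · intro z hz
    rw [Set.mem_compl_iff, Set.mem_ofPred_eq, hΨ z]
    rintro ⟨⟨h3, h4⟩, h5⟩
    apply hz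
    refine ⟨?_, ?_, h5⟩
    · have h6 : Ideal.Quotient.factor (Ideal.pow_le_self (I := P) two_ne_zero)
          (Ideal.Quotient.mk (P ^ 2) (aOf b z)) = Ideal.Quotient.mk P (aOf b z) :=
        Ideal.Quotient.factor_mk _ _
      rw [h6] at h3
      exact Ideal.Quotient.eq_zero_iff_mem.1 h3
    · intro h6
      exact h4 (Ideal.Quotient.eq_zero_iff_mem.2 h6)

end SUU
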