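import Mathlib

/-!
# [SUU-U5] Products of different irreducible polynomials
-/

set_option autoImplicit false

open Polynomial

namespace SUU

variable {k : Type} [Field k] {r : Type} [Fintype r]

/-- An irreducible monic polynomial dividing an irreducible monic polynomial is equal to it. -/
theorem eq_of_dvd_irr {p q : k[X]} (hp : Irreducible p) (hpm : p.Monic) (hq : Irreducible q)
    (hqm : q.Monic) (h : p ∣ q) : p = q :=
  eq_of_monic_of_associated hpm hqm (hp.associated_of_dvd hq h)

/-- The product is separable if the factors are different monic irreducible polynomials over a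
perfect field. -/
theorem separable_prod [PerfectField k] (f : r → k[X]) (hf : ∀ i, Irreducible (f i))
    (hfm : ∀ i, (f i).Monic) (hne : ∀ i j, i ≠ j → f i ≠ f j) : (∏ i, f i).Separable := by
  refine Polynomial.separable_prod ?_ fun i => PerfectField.separable_of_irreducible (hf i)
  intro i j hij
  refine ((hf i).coprime_iff_not_dvd).2 fun h => ?_
  exact hne i j hij (eq_of_dvd_irr (hf i) (hfm i) (hf j) (hfm j) h)

theorem separable_mul_prod [PerfectField k] (h : k[X]) (hs : h.Separable) (f : r → k[X])
    (hf : ∀ i, Irreducible (f i)) (hfm : ∀ i, (f i).Monic) (hne : ∀ i j, i ≠ j → f i ≠ f j)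
    (hh : ∀ i, ¬ f i ∣ h) : (h * ∏ i, f i).Separable := by
  refine hs.mul (separable_prod f hf hfm hne) ?_
  refine IsCoprime.prod_right fun i _ => ?_
  exact (((hf i).coprime_iff_not_dvd).2 (hh i)).symm

theorem no_root (f : r → k[X]) (hf : ∀ i, Irreducible (f i)) (h2 : ∀ i, 2 ≤ (f i).natDegree)
    (a : k) : (∏ i, f i).eval a ≠ 0 := by
  rw [eval_prod]
  refine Finset.prod_ne_zero_iff.2 fun i _ h => ?_
  have h3 := degree_eq_one_of_irreducible_of_root (hf i) (show IsRoot (f i) a from h)
  have h4 : (f i).natDegree = 1 := natDegree_eq_of_degree_eq_some h3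
  have := h2 i
  omega

end SUU
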