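import Mathlib

/-!
# [SUU-U2] Counting irreducible polynomials over a finite field

At least `q^n / (2 n)` of the monic polynomials of degree `n` over a field with `q ≥ 4` elements
are irreducible.
-/

set_option autoImplicit false

open Polynomial

namespace SUU

/-- The monic polynomial `X^n + ∑ c_j X^j`. -/
noncomputable def mon {R : Type} [CommRing R] (n : ℕ) (c : Fin n → R) : R[X] :=
  X ^ n + ∑ j : Fin n, C (c j) * X ^ (j : ℕ)

section mon

variable {R : Type} [CommRing R]

theorem degree_lt (n : ℕ) (c : Fin n → R) :
    (∑ j : Fin n, C (c j) * X ^ (j : ℕ) : R[X]).degree < n := degree_sum_fin_lt c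

theorem mon_monic (n : ℕ) (c : Fin n → R) : (mon n c).Monic := by
  rw [mon]
  exact monic_X_pow_add (degree_lt n c)

theorem mon_natDegree [Nontrivial R] (n : ℕ) (c : Fin n → R) : (mon n c).natDegree = n := by
  have h : (mon n c).degree = n := by
    rw [mon, degree_add_eq_left_of_degree_lt (by rw [degree_X_pow]; exact degree_lt n c),
      degree_X_pow]
  exact natDegree_eq_of_degree_eq_some h

theorem mon_coeff (n : ℕ) (c : Fin n → R) (j : Fin n) : (mon n c).coeff j = c j := by
  rw [mon, coeff_add, coeff_X_pow, if_neg (ne_of_lt j.2), zero_add, finsetSum_coeff,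
    Finset.sum_eq_single j]
  · rw [coeff_C_mul, coeff_X_pow, if_pos rfl, mul_one]
  · intro i _ hij
    rw [coeff_C_mul, coeff_X_pow, if_neg (fun h => hij (Fin.ext h.symm)), mul_zero]
  · intro h
    exact absurd (Finset.mem_univ j) h

theorem mon_injective (n : ℕ) : Function.Injective (mon (R := R) n) := by
  intro c c' h
  funext j
  rw [← mon_coeff n c j, ← mon_coeff n c' j, h]

theorem mon_map {S : Type} [CommRing S] (f : R →+* S) (n : ℕ) (c : Fin n → R) :
    (mon n c).map f = mon n (fun j => f (c j)) := by
  rw [mon, mon, Polynomial.map_add, Polynomial.map_pow, map_X, Polynomial.map_sum]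
  congr 1
  refine Finset.sum_congr rfl fun j _ => ?_
  rw [Polynomial.map_mul, map_C, Polynomial.map_pow, map_X]

/-- Every monic polynomial is of this form. -/
theorem eq_mon [Nontrivial R] {p : R[X]} (hp : p.Monic) :
    mon p.natDegree (fun j => p.coeff j) = p := by
  rw [mon]
  conv_rhs => rw [hp.as_sum]
  congr 1
  exact Fin.sum_univ_eq_sum_range (fun j => C (p.coeff j) * X ^ j) p.natDegree

end mon

/-- Elements of degree less than `n` in the extension of degree `n`. -/
theorem card_small (F E : Type) [Field F] [Finite F] [Field E] [Finite E] [Algebra F E] (n : ℕ) :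
    Nat.card {x : E // (minpoly F x).natDegree < n} ≤
      ∑ d ∈ Finset.range n, (Nat.card F) ^ d := by
  classical
  have hF1 : 1 < Nat.card F := Finite.one_lt_card
  have hsub : {x : E | (minpoly F x).natDegree < n} ⊆
      ⋃ d ∈ Finset.Ico 1 n, {x : E | x ^ (Nat.card F) ^ d = x} := by
    intro x hx
    have hx' : (minpoly F x).natDegree < n := hx
    have hint : IsIntegral F x := Algebra.IsIntegral.isIntegral x
    have hpos : 0 < (minpoly F x).natDegree := minpoly.natDegree_pos hint
    simp only [Set.mem_iUnion, Finset.mem_Ico]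
    refine ⟨(minpoly F x).natDegree, ⟨hpos, hx'⟩, ?_⟩
    have h1 : minpoly F x ∣ X ^ (Nat.card F) ^ (minpoly F x).natDegree - X :=
      (Irreducible.natDegree_dvd_iff_dvd_X_pow_card_pow_sub_X (minpoly.irreducible hint)).1
        (dvd_refl _)
    obtain ⟨r, hr⟩ := h1
    have h2 := congrArg (aeval x) hr
    rw [map_mul, minpoly.aeval, zero_mul, map_sub, map_pow, aeval_X, sub_eq_zero] at h2
    exact h2
  have hcard : ∀ d, 1 ≤ d → ({x : E | x ^ (Nat.card F) ^ d = x}).ncard ≤ (Nat.card F) ^ d := by
    intro d hd
    have h1 : 1 < (Nat.card F) ^ d := Nat.one_lt_pow (by omega) hF1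
    have h2 : (X ^ (Nat.card F) ^ d - X : E[X]) ≠ 0 :=
      FiniteField.X_pow_card_sub_X_ne_zero E h1
    have h3 : {x : E | x ^ (Nat.card F) ^ d = x} ⊆
        (((X ^ (Nat.card F) ^ d - X : E[X]).roots.toFinset : Finset E) : Set E) := by
      intro x hx
      rw [Finset.mem_coe, Multiset.mem_toFinset, mem_roots h2, IsRoot.def, eval_sub, eval_pow,
        eval_X, sub_eq_zero]
      exact hx
    refine (Set.ncard_le_ncard h3 (Finset.finite_toSet _)).trans ?_
    rw [Set.ncard_coe_finset]
    refine (Multiset.toFinset_card_le _).trans ((card_roots' _).trans ?_)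
    rw [FiniteField.X_pow_card_sub_X_natDegree_eq E h1]
  have hfin : ∀ s : Set E, s.Finite := fun s => Set.toFinite s
  calc Nat.card {x : E // (minpoly F x).natDegree < n}
      = ({x : E | (minpoly F x).natDegree < n}).ncard := rfl
    _ ≤ (⋃ d ∈ Finset.Ico 1 n, {x : E | x ^ (Nat.card F) ^ d = x}).ncard :=
        Set.ncard_le_ncard hsub (hfin _)
    _ ≤ ∑ d ∈ Finset.Ico 1 n, ({x : E | x ^ (Nat.card F) ^ d = x}).ncard :=
        Finset.set_ncard_biUnion_le _ _
    _ ≤ ∑ d ∈ Finset.Ico 1 n, (Nat.card F) ^ d :=
        Finset.sum_le_sum fun d hd => hcard d (Finset.mem_Ico.1 hd).1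
    _ ≤ ∑ d ∈ Finset.range n, (Nat.card F) ^ d := by
        refine Finset.sum_le_sum_of_subset ?_
        intro d hd
        rw [Finset.mem_range]
        exact (Finset.mem_Ico.1 hd).2

theorem geom_le (q n : ℕ) (hq : 2 ≤ q) : ∑ d ∈ Finset.range n, q ^ d ≤ 2 * q ^ (n - 1) := by
  induction n with
  | zero => simp
  | succ n ih =>
    rw [Finset.sum_range_succ, Nat.add_sub_cancel]
    rcases Nat.eq_zero_or_pos n with rfl | hn
    · simp
    · have h1 : 2 * q ^ (n - 1) ≤ q ^ n := by
        conv_rhs => rw [← Nat.sub_add_cancel hn, pow_succ, mul_comm]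
        exact Nat.mul_le_mul_right _ hq
      omega

theorem card_irr (F : Type) [Field F] [Finite F] (n : ℕ) (hn : 0 < n) (hq : 4 ≤ Nat.card F) :
    (Nat.card F) ^ n ≤ 2 * n * Nat.card {c : Fin n → F // Irreducible (mon n c)} := by
  classical
  obtain ⟨p, hp⟩ := CharP.exists F
  have : Fact (Nat.Prime p) := ⟨CharP.char_is_prime F p⟩
  have : NeZero n := ⟨hn.ne'⟩
  set E := FiniteField.Extension F p n with hE
  have hEcard : Nat.card E = Nat.card F ^ n := FiniteField.natCard_extension F p n
  have : Fintype E := Fintype.ofFinite E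
  have : Fintype F := Fintype.ofFinite F
  -- elements of degree `n`
  have h1 : Nat.card E ≤ Nat.card {x : E // (minpoly F x).natDegree < n} +
      Nat.card {x : E // (minpoly F x).natDegree = n} := by
    have h2 : (Set.univ : Set E) ⊆ {x : E | (minpoly F x).natDegree < n} ∪
        {x : E | (minpoly F x).natDegree = n} := by
      intro x _
      have h3 : (minpoly F x).natDegree ≤ Module.finrank F E := minpoly.natDegree_le x
      rw [FiniteField.finrank_extension F p n] at h3
      rcases lt_or_eq_of_le h3 with h4 | h4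
      · exact Or.inl h4
      · exact Or.inr h4
    calc Nat.card E = (Set.univ : Set E).ncard := (Set.ncard_univ E).symm
      _ ≤ _ := Set.ncard_le_ncard h2 (Set.toFinite _)
      _ ≤ _ := Set.ncard_union_le _ _
  have h2 : Nat.card {x : E // (minpoly F x).natDegree < n} ≤ 2 * Nat.card F ^ (n - 1) :=
    (card_small F E n).trans (geom_le _ n (by omega))
  have h3 : 4 * Nat.card F ^ (n - 1) ≤ Nat.card F ^ n := by
    conv_rhs => rw [← Nat.sub_add_cancel (Nat.one_le_iff_ne_zero.2 hn.ne'), pow_succ, mul_comm]
    exact Nat.mul_le_mul_right _ hq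
  -- the map to the irreducible polynomials
  have h4 : Nat.card {x : E // (minpoly F x).natDegree = n} ≤
      n * Nat.card {c : Fin n → F // Irreducible (mon n c)} := by
    have h5 : {x : E | (minpoly F x).natDegree = n} ⊆
        ⋃ c ∈ (Finset.univ.filter fun c : Fin n → F => Irreducible (mon n c)),
          {x : E | aeval x (mon n c) = 0} := by
      intro x hx
      have hx' : (minpoly F x).natDegree = n := hx
      have hint : IsIntegral F x := Algebra.IsIntegral.isIntegral x
      simp only [Set.mem_iUnion, Finset.mem_filter, Finset.mem_univ, true_and]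
      have h6 : mon n (fun j : Fin n => (minpoly F x).coeff j) = minpoly F x := by
        have := eq_mon (minpoly.monic hint)
        rw [hx'] at this
        exact this
      refine ⟨fun j => (minpoly F x).coeff j, ?_, ?_⟩
      · rw [h6]
        exact minpoly.irreducible hint
      · show aeval x (mon n (fun j : Fin n => (minpoly F x).coeff j)) = 0
        rw [h6]
        exact minpoly.aeval F x
    have h7 : ∀ c : Fin n → F, ({x : E | aeval x (mon n c) = 0}).ncard ≤ n := by
      intro c
      have h8 : (mon n c).map (algebraMap F E) ≠ 0 := ((mon_monic n c).map _).ne_zero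
      have h9 : {x : E | aeval x (mon n c) = 0} ⊆
          ((((mon n c).map (algebraMap F E)).roots.toFinset : Finset E) : Set E) := by
        intro x hx
        rw [Finset.mem_coe, Multiset.mem_toFinset, mem_roots h8, IsRoot.def, eval_map_algebraMap]
        exact hx
      refine (Set.ncard_le_ncard h9 (Finset.finite_toSet _)).trans ?_
      rw [Set.ncard_coe_finset]
      refine (Multiset.toFinset_card_le _).trans ((card_roots' _).trans ?_)
      rw [natDegree_map, mon_natDegree]
    calc Nat.card {x : E // (minpoly F x).natDegree = n}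
        = ({x : E | (minpoly F x).natDegree = n}).ncard := rfl
      _ ≤ (⋃ c ∈ (Finset.univ.filter fun c : Fin n → F => Irreducible (mon n c)),
          {x : E | aeval x (mon n c) = 0}).ncard := Set.ncard_le_ncard h5 (Set.toFinite _)
      _ ≤ ∑ c ∈ (Finset.univ.filter fun c : Fin n → F => Irreducible (mon n c)),
          ({x : E | aeval x (mon n c) = 0}).ncard := Finset.set_ncard_biUnion_le _ _
      _ ≤ ∑ c ∈ (Finset.univ.filter fun c : Fin n → F => Irreducible (mon n c)), n :=
          Finset.sum_le_sum fun c _ => h7 c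
      _ = n * Nat.card {c : Fin n → F // Irreducible (mon n c)} := by
          rw [Finset.sum_const, smul_eq_mul, mul_comm, Nat.card_eq_fintype_card,
            Fintype.card_subtype]
  rw [hEcard] at h1
  have h10 : 2 * Nat.card {x : E // (minpoly F x).natDegree = n} ≤
      2 * (n * Nat.card {c : Fin n → F // Irreducible (mon n c)}) := Nat.mul_le_mul_left 2 h4
  have h11 : 2 * (n * Nat.card {c : Fin n → F // Irreducible (mon n c)}) =
      2 * n * Nat.card {c : Fin n → F // Irreducible (mon n c)} := by ring
  omega

end SUU
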