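import Pool.Agent.MP_c1dca2_ag.SUU.U2

/-!
# [SUU-U3] Counting tuples of different irreducible polynomials over a finite field
-/

set_option autoImplicit false

open Polynomial

namespace SUU

/-- All members irreducible and different. -/
def GoodT {F : Type} [CommRing F] {r : Type} (n : r → ℕ) (c : (i : r) → Fin (n i) → F) : Prop :=
  (∀ i, Irreducible (mon (n i) (c i))) ∧
    ∀ i i', i ≠ i' → mon (n i) (c i) ≠ mon (n i') (c i')

theorem card_eq_pow (F : Type) [Field F] [Finite F] (r : Type) [Fintype r] (n : r → ℕ) :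
    Nat.card ((i : r) → Fin (n i) → F) = (Nat.card F) ^ ∑ i, n i := by
  rw [Nat.card_pi, ← Finset.prod_pow_eq_pow_sum]
  refine Finset.prod_congr rfl fun i _ => ?_
  rw [Nat.card_fun, Nat.card_eq_fintype_card (α := Fin (n i)), Fintype.card_fin]

theorem card_coinc (F : Type) [Field F] [Finite F] (r : Type) [Fintype r] (n : r → ℕ)
    (i i' : r) (h : i ≠ i') (hn : 2 ≤ n i) :
    Nat.card {c : (i : r) → Fin (n i) → F // mon (n i) (c i) = mon (n i') (c i')} *
      (Nat.card F) ^ 2 ≤ (Nat.card F) ^ ∑ i, n i := by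
  classical
  have hq : 0 < Nat.card F := Nat.card_pos
  have h1 : Nat.card {c : (i : r) → Fin (n i) → F // mon (n i) (c i) = mon (n i') (c i')} *
      Nat.card (Fin (n i) → F) ≤ Nat.card ((i : r) → Fin (n i) → F) := by
    rw [← Nat.card_prod]
    refine Nat.card_le_card_of_injective
      (fun x : {c : (i : r) → Fin (n i) → F // mon (n i) (c i) = mon (n i') (c i')} ×
        (Fin (n i) → F) => Function.update x.1.1 i x.2) ?_
    rintro ⟨⟨c, hc⟩, y⟩ ⟨⟨c', hc'⟩, y'⟩ hxy
    have hxy' : Function.update c i y = Function.update c' i y' := hxy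
    have h2 : ∀ j, j ≠ i → c j = c' j := by
      intro j hj
      have := congrFun hxy' j
      rwa [Function.update_of_ne hj, Function.update_of_ne hj] at this
    have h3 : y = y' := by
      have := congrFun hxy' i
      rwa [Function.update_self, Function.update_self] at this
    have h4 : c i = c' i := by
      apply mon_injective (n i)
      rw [hc, hc', h2 i' h.symm]
    have h5 : c = c' := by
      funext j
      by_cases hj : j = i
      · rw [hj, h4]
      · exact h2 j hj
    subst h5 h3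
    rfl
  rw [card_eq_pow, Nat.card_fun, Nat.card_eq_fintype_card (α := Fin (n i)), Fintype.card_fin] at h1
  exact (Nat.mul_le_mul_left _ (Nat.pow_le_pow_right hq hn)).trans h1

/-- The monic irreducible divisors of a polynomial inject into its roots. -/
theorem card_divisors (F : Type) [Field F] [Finite F] (n : ℕ) (hn : 0 < n) (h : F[X])
    (h0 : h ≠ 0) :
    Nat.card {c : Fin n → F // Irreducible (mon n c) ∧ mon n c ∣ h} ≤ h.natDegree := by
  classical
  set E := AlgebraicClosure F
  have hroot : ∀ c : {c : Fin n → F // Irreducible (mon n c) ∧ mon n c ∣ h},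
      ∃ x : E, aeval x (mon n c.1) = 0 := by
    intro c
    have h1 : ((mon n c.1).map (algebraMap F E)).degree ≠ 0 := by
      rw [degree_map, (degree_eq_natDegree (mon_monic n c.1).ne_zero), mon_natDegree]
      exact_mod_cast hn.ne'
    obtain ⟨x, hx⟩ := IsAlgClosed.exists_root _ h1
    refine ⟨x, ?_⟩
    rw [← eval_map_algebraMap]
    exact hx
  choose ρ hρ using hroot
  have hmin : ∀ c, mon n c.1 = minpoly F (ρ c) := fun c =>
    minpoly.eq_of_irreducible_of_monic c.2.1 (hρ c) (mon_monic n c.1)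
  have hinj : Function.Injective ρ := by
    intro c c' hcc
    apply Subtype.ext
    apply mon_injective n
    rw [hmin c, hmin c', hcc]
  have hne : h.map (algebraMap F E) ≠ 0 := (Polynomial.map_ne_zero_iff (algebraMap F E).injective).2 h0
  have hmem : ∀ c, ρ c ∈ (h.map (algebraMap F E)).roots.toFinset := by
    intro c
    rw [Multiset.mem_toFinset, mem_roots hne, IsRoot.def, eval_map_algebraMap]
    obtain ⟨w, hw⟩ := c.2.2
    rw [hw, map_mul, hρ c, zero_mul]
  have h2 : Nat.card {c : Fin n → F // Irreducible (mon n c) ∧ mon n c ∣ h} ≤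
      Nat.card ((h.map (algebraMap F E)).roots.toFinset : Finset E) :=
    Nat.card_le_card_of_injective (fun c => ⟨ρ c, hmem c⟩) (fun c c' hcc =>
      hinj (congrArg Subtype.val hcc))
  refine h2.trans ?_
  rw [Nat.card_eq_fintype_card, Fintype.card_coe]
  refine (Multiset.toFinset_card_le _).trans ((card_roots' _).trans ?_)
  rw [natDegree_map]

theorem card_dvd (F : Type) [Field F] [Finite F] (r : Type) [Fintype r] (n : r → ℕ)
    (i : r) (hn : 2 ≤ n i) (h : F[X]) (h0 : h ≠ 0) :
    Nat.card {c : (i : r) → Fin (n i) → F // Irreducible (mon (n i) (c i)) ∧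
      mon (n i) (c i) ∣ h} * (Nat.card F) ^ 2 ≤ h.natDegree * (Nat.card F) ^ ∑ i, n i := by
  classical
  have hq : 0 < Nat.card F := Nat.card_pos
  have h1 : Nat.card {c : (i : r) → Fin (n i) → F // Irreducible (mon (n i) (c i)) ∧
      mon (n i) (c i) ∣ h} * Nat.card (Fin (n i) → F) ≤
      Nat.card {c : Fin (n i) → F // Irreducible (mon (n i) c) ∧ mon (n i) c ∣ h} *
        Nat.card ((i : r) → Fin (n i) → F) := by
    rw [← Nat.card_prod, ← Nat.card_prod]
    refine Nat.card_le_card_of_injective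
      (fun x : {c : (i : r) → Fin (n i) → F // Irreducible (mon (n i) (c i)) ∧
        mon (n i) (c i) ∣ h} × (Fin (n i) → F) =>
        ((⟨x.1.1 i, x.1.2⟩ :
          {c : Fin (n i) → F // Irreducible (mon (n i) c) ∧ mon (n i) c ∣ h}),
          Function.update x.1.1 i x.2)) ?_
    rintro ⟨⟨c, hc⟩, y⟩ ⟨⟨c', hc'⟩, y'⟩ hxy
    have hxy1 : c i = c' i := congrArg Subtype.val (congrArg Prod.fst hxy)
    have hxy' : Function.update c i y = Function.update c' i y' := congrArg Prod.snd hxy
    have h3 : y = y' := by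
      have := congrFun hxy' i
      rwa [Function.update_self, Function.update_self] at this
    have h5 : c = c' := by
      funext j
      by_cases hj : j = i
      · rw [hj, hxy1]
      · have := congrFun hxy' j
        rwa [Function.update_of_ne hj, Function.update_of_ne hj] at this
    subst h5 h3
    rfl
  rw [card_eq_pow, Nat.card_fun, Nat.card_eq_fintype_card (α := Fin (n i)), Fintype.card_fin] at h1
  refine (Nat.mul_le_mul_left _ (Nat.pow_le_pow_right hq hn)).trans (h1.trans ?_)
  exact Nat.mul_le_mul_right _ (card_divisors F (n i) (by omega) h h0)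

theorem card_tuples (r : Type) [Fintype r] (n : r → ℕ) (hn : ∀ i, 2 ≤ n i) (d : ℕ) :
    ∃ δ : ℝ, 0 < δ ∧ ∃ q₀ : ℕ, ∀ (F : Type) [Field F] [Finite F], q₀ ≤ Nat.card F →
      ∀ h : F[X], h ≠ 0 → h.natDegree ≤ d →
      δ * ((Nat.card F : ℝ) ^ ∑ i, n i) ≤
        Nat.card {c : (i : r) → Fin (n i) → F // GoodT n c ∧ ∀ i, ¬ mon (n i) (c i) ∣ h} := by
  classical
  set P : ℕ := ∏ i, (2 * n i) with hP
  have hPpos : 0 < P := Finset.prod_pos fun i _ => by have := hn i; omega
  set R : ℕ := Fintype.card r with hR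
  refine ⟨1 / (2 * P), by positivity, max 4 (2 * P * (R ^ 2 + R * d)), ?_⟩
  intro F _ _ hq h h0 hd
  have hq4 : 4 ≤ Nat.card F := (le_max_left _ _).trans hq
  have hqR : 2 * P * (R ^ 2 + R * d) ≤ Nat.card F := (le_max_right _ _).trans hq
  set q : ℕ := Nat.card F with hqdef
  set D : ℕ := ∑ i, n i with hD
  -- all members irreducible
  have hA : q ^ D ≤ P * Nat.card {c : (i : r) → Fin (n i) → F //
      ∀ i, Irreducible (mon (n i) (c i))} := by
    have e1 : Nat.card {c : (i : r) → Fin (n i) → F // ∀ i, Irreducible (mon (n i) (c i))} =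
        ∏ i, Nat.card {c : Fin (n i) → F // Irreducible (mon (n i) c)} := by
      rw [← Nat.card_pi]
      exact Nat.card_congr (Equiv.subtypePiEquivPi
        (p := fun (i : r) (c : Fin (n i) → F) => Irreducible (mon (n i) c)))
    rw [e1, hP, ← Finset.prod_mul_distrib, hD, ← Finset.prod_pow_eq_pow_sum]
    refine Finset.prod_le_prod' fun i _ => ?_
    exact card_irr F (n i) (by have := hn i; omega) hq4
  -- union bound
  have hU : Nat.card {c : (i : r) → Fin (n i) → F // ∀ i, Irreducible (mon (n i) (c i))} ≤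
      Nat.card {c : (i : r) → Fin (n i) → F // GoodT n c ∧ ∀ i, ¬ mon (n i) (c i) ∣ h} +
        (∑ x ∈ (Finset.univ : Finset (r × r)).filter (fun x => x.1 ≠ x.2),
          Nat.card {c : (i : r) → Fin (n i) → F //
            mon (n x.1) (c x.1) = mon (n x.2) (c x.2)} +
         ∑ i, Nat.card {c : (i : r) → Fin (n i) → F // Irreducible (mon (n i) (c i)) ∧
            mon (n i) (c i) ∣ h}) := by
    have h1 : {c : (i : r) → Fin (n i) → F | ∀ i, Irreducible (mon (n i) (c i))} ⊆
        {c | GoodT n c ∧ ∀ i, ¬ mon (n i) (c i) ∣ h} ∪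
        ((⋃ x ∈ (Finset.univ : Finset (r × r)).filter (fun x => x.1 ≠ x.2),
          {c | mon (n x.1) (c x.1) = mon (n x.2) (c x.2)}) ∪
         (⋃ i ∈ (Finset.univ : Finset r), {c | Irreducible (mon (n i) (c i)) ∧
            mon (n i) (c i) ∣ h})) := by
      intro c hc
      by_cases h2 : GoodT n c
      · by_cases h3 : ∀ i, ¬ mon (n i) (c i) ∣ h
        · exact Or.inl ⟨h2, h3⟩
        · right
          right
          push Not at h3
          obtain ⟨i, hi⟩ := h3
          simp only [Set.mem_iUnion, Finset.mem_univ]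
          exact ⟨i, trivial, hc i, hi⟩
      · right
        left
        have h3 : ∃ i i', i ≠ i' ∧ mon (n i) (c i) = mon (n i') (c i') := by
          by_contra h4
          push Not at h4
          exact h2 ⟨hc, h4⟩
        obtain ⟨i, i', h4, h5⟩ := h3
        simp only [Set.mem_iUnion, Finset.mem_filter, Finset.mem_univ, true_and]
        exact ⟨(i, i'), h4, h5⟩
    refine (Set.ncard_le_ncard h1 (Set.toFinite _)).trans ?_
    refine (Set.ncard_union_le _ _).trans ?_
    refine Nat.add_le_add_left ((Set.ncard_union_le _ _).trans ?_) _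
    exact Nat.add_le_add (Finset.set_ncard_biUnion_le _ _) (Finset.set_ncard_biUnion_le _ _)
  have hq0 : (0 : ℝ) < (q : ℝ) ^ 2 := by
    have : 0 < q := by omega
    positivity
  have hB : ∀ x ∈ (Finset.univ : Finset (r × r)).filter (fun x => x.1 ≠ x.2),
      (Nat.card {c : (i : r) → Fin (n i) → F //
            mon (n x.1) (c x.1) = mon (n x.2) (c x.2)} : ℝ) ≤ (q : ℝ) ^ D / (q : ℝ) ^ 2 := by
    intro x hx
    have h1 := card_coinc F r n x.1 x.2 (Finset.mem_filter.1 hx).2 (hn x.1)
    rw [le_div_iff₀ hq0]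
    exact_mod_cast h1
  have hC : ∀ i ∈ (Finset.univ : Finset r),
      (Nat.card {c : (i : r) → Fin (n i) → F // Irreducible (mon (n i) (c i)) ∧
            mon (n i) (c i) ∣ h} : ℝ) ≤ d * ((q : ℝ) ^ D / (q : ℝ) ^ 2) := by
    intro i _
    have h1 := (card_dvd F r n i (hn i) h h0).trans (Nat.mul_le_mul_right _ hd)
    rw [← mul_div_assoc, le_div_iff₀ hq0]
    exact_mod_cast h1
  have hUr : (Nat.card {c : (i : r) → Fin (n i) → F //
      ∀ i, Irreducible (mon (n i) (c i))} : ℝ) ≤
      Nat.card {c : (i : r) → Fin (n i) → F // GoodT n c ∧ ∀ i, ¬ mon (n i) (c i) ∣ h} +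
        ((R : ℝ) ^ 2 + R * d) * ((q : ℝ) ^ D / (q : ℝ) ^ 2) := by
    have h1 : (Nat.card {c : (i : r) → Fin (n i) → F //
        ∀ i, Irreducible (mon (n i) (c i))} : ℝ) ≤
        Nat.card {c : (i : r) → Fin (n i) → F // GoodT n c ∧ ∀ i, ¬ mon (n i) (c i) ∣ h} +
        (∑ x ∈ (Finset.univ : Finset (r × r)).filter (fun x => x.1 ≠ x.2),
          (Nat.card {c : (i : r) → Fin (n i) → F //
            mon (n x.1) (c x.1) = mon (n x.2) (c x.2)} : ℝ) +
         ∑ i, (Nat.card {c : (i : r) → Fin (n i) → F // Irreducible (mon (n i) (c i)) ∧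
            mon (n i) (c i) ∣ h} : ℝ)) := by exact_mod_cast hU
    refine h1.trans (add_le_add_right ?_ _)
    rw [add_mul]
    refine add_le_add ?_ ?_
    · refine (Finset.sum_le_sum hB).trans ?_
      rw [Finset.sum_const, nsmul_eq_mul]
      refine mul_le_mul_of_nonneg_right ?_ (by positivity)
      have h2 : ((Finset.univ : Finset (r × r)).filter (fun x => x.1 ≠ x.2)).card ≤ R ^ 2 := by
        refine (Finset.card_filter_le _ _).trans ?_
        rw [Finset.card_univ, Fintype.card_prod, pow_two]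
      exact_mod_cast h2
    · refine (Finset.sum_le_sum hC).trans ?_
      rw [Finset.sum_const, nsmul_eq_mul, Finset.card_univ, mul_assoc]
  have hAr : (q : ℝ) ^ D ≤ P * (Nat.card {c : (i : r) → Fin (n i) → F //
      ∀ i, Irreducible (mon (n i) (c i))} : ℝ) := by exact_mod_cast hA
  have hqpos : (0 : ℝ) < q := by
    have : 0 < q := by omega
    exact_mod_cast this
  have hPr : (0 : ℝ) < P := by exact_mod_cast hPpos
  have hkey : (P : ℝ) * (((R : ℝ) ^ 2 + R * d) * ((q : ℝ) ^ D / (q : ℝ) ^ 2)) ≤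
      (q : ℝ) ^ D / 2 := by
    have h1 : (2 : ℝ) * P * ((R : ℝ) ^ 2 + R * d) ≤ q := by exact_mod_cast hqR
    have h2 : (q : ℝ) ≤ (q : ℝ) ^ 2 := by
      have : (1 : ℝ) ≤ q := by
        have : 1 ≤ q := by omega
        exact_mod_cast this
      nlinarith
    have h3 : (P : ℝ) * (((R : ℝ) ^ 2 + R * d) * ((q : ℝ) ^ D / (q : ℝ) ^ 2)) =
        (2 * P * ((R : ℝ) ^ 2 + R * d)) / (q : ℝ) ^ 2 * ((q : ℝ) ^ D / 2) := by
      field_simp
    rw [h3]
    have h4 : (2 * (P : ℝ) * ((R : ℝ) ^ 2 + R * d)) / (q : ℝ) ^ 2 ≤ 1 := by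
      rw [div_le_one (by positivity)]
      linarith
    calc (2 * (P : ℝ) * ((R : ℝ) ^ 2 + R * d)) / (q : ℝ) ^ 2 * ((q : ℝ) ^ D / 2) ≤
          1 * ((q : ℝ) ^ D / 2) := mul_le_mul_of_nonneg_right h4 (by positivity)
      _ = _ := one_mul _
  have hfin : (q : ℝ) ^ D ≤
      P * (Nat.card {c : (i : r) → Fin (n i) → F // GoodT n c ∧
        ∀ i, ¬ mon (n i) (c i) ∣ h} : ℝ) + (q : ℝ) ^ D / 2 := by
    have h1 := mul_le_mul_of_nonneg_left hUr hPr.le
    rw [mul_add] at h1
    linarith
  rw [div_mul_eq_mul_div, one_mul, div_le_iff₀ (by positivity)]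
  linarith

end SUU
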