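import Pool.Agent.MP_c1dca2_ag.SUU.U4
import Pool.Agent.MP_c1dca2_ag.SUU.U5
import Pool.Agent.MP_c1dca2_ag.SUP.K9

/-!
# [SUU-U6] No sections if the prime `P` is good for the curve
-/

set_option autoImplicit false

open Polynomial NumberField IsLocalRing

namespace SUU

variable {k : Type} [Field k] [NumberField k]

/-- The polynomial `g` has good reduction at `P`, without a root in the residue field. -/
def GoodRed (g : k[X]) (P : Ideal (𝓞 k)) : Prop :=
  ∃ A : ValuationSubring k, IsDiscreteValuationRing A ∧ Finite (ResidueField A) ∧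
    Nat.card (ResidueField A) = Ideal.absNorm P ∧ (∀ x : 𝓞 k, (x : k) ∈ A) ∧
    (∀ x : 𝓞 k, A.valuation (x : k) < 1 ↔ x ∈ P) ∧
    (∀ x : 𝓞 k, x ∈ P → x ∉ P ^ 2 → ∀ ℓ : ℕ, 2 ≤ ℓ → ∀ b : k,
      A.valuation (x : k) ≠ A.valuation b ^ ℓ) ∧
    ∃ g' : A[X], g'.map A.subtype = g ∧ (g'.map (residue A)).Separable ∧
      (g'.map (residue A)).natDegree = g'.natDegree ∧ ∀ a, (g'.map (residue A)).eval a ≠ 0

variable {r : Type} [Fintype r] {n : r → ℕ}

theorem exists_S (hn : ∀ i, 2 ≤ n i) (G : k[X][X]) (c₁ : k[X])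
    (hGd : (G.map (evalRingHom 0)).natDegree = G.natDegree) (hc₁ : c₁.eval 0 ≠ 0)
    (h3 : 3 ≤ G.natDegree + ∑ i, n i) (δ : ℝ) (q₀ : ℕ)
    (hδ : ∀ (F : Type) [Field F] [Finite F], q₀ ≤ Nat.card F →
      ∀ h : F[X], h ≠ 0 → h.natDegree ≤ G.natDegree →
      δ * ((Nat.card F : ℝ) ^ ∑ i, n i) ≤
        Nat.card {c : (i : r) → Fin (n i) → F // GoodT n c ∧ ∀ i, ¬ mon (n i) (c i) ∣ h})
    (p : ℕ) (hp : p.Prime) (hqp : q₀ ≤ p) (P : Ideal (𝓞 k)) (hP : Ideal.absNorm P = p)
    (hg : GoodRed (G.map (evalRingHom 0)) P)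
    (hmod : ∀ A : ValuationSubring k, (∀ x : 𝓞 k, (x : k) ∈ A) →
      (∀ x : 𝓞 k, A.valuation (x : k) < 1 ↔ x ∈ P) →
      (∃ G' : A[X][X], G'.map (mapRingHom A.subtype) = G) ∧
      (∃ c' : A[X], c'.map A.subtype = c₁) ∧ (c₁.eval 0)⁻¹ ∈ A) :
    ∃ S : Set ((i : r) → Fin (n i) → 𝓞 k ⧸ P), δ * ((p : ℝ) ^ ∑ i, n i) ≤ Nat.card S ∧
      ∀ (a : 𝓞 k) (c : (i : r) → Fin (n i) → 𝓞 k), a ∈ P → a ∉ P ^ 2 →
        (fun i j => Ideal.Quotient.mk P (c i j)) ∈ S →
        ∀ (m : ℕ) (F : k[X]) (ℓ : ℕ), ℓ.Prime → ℓ ≠ p → ℓ ∣ m → F.Monic →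
          SUP.Adm ℓ F (G.map (evalRingHom (a : k)) * ∏ i, mon (n i) (fun j => (c i j : k))) →
          SUP.NoSec k m (C ((a : k) * c₁.eval (a : k)) * F) := by
  classical
  obtain ⟨A, hA1, hA2, hA3, hA4, hA5, hA6, g', hg1, hg2, hg3, hg4⟩ := hg
  obtain ⟨⟨G', hG'⟩, ⟨c', hc'⟩, hcinv⟩ := hmod A hA4 hA5
  set g : k[X] := G.map (evalRingHom 0) with hgdef
  have hPp : P.IsPrime := Ideal.isPrime_of_irreducible_absNorm (by rw [hP]; exact hp)
  have hP0 : P ≠ ⊥ := by
    rintro rfl
    rw [Ideal.absNorm_bot] at hP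
    exact hp.ne_zero hP.symm
  have hPm : P.IsMaximal := hPp.isMaximal hP0
  -- the homomorphism to the residue field
  let τ : 𝓞 k →+* A :=
    { toFun := fun x => ⟨(x : k), hA4 x⟩
      map_one' := by apply Subtype.ext; simp
      map_mul' := fun x y => by apply Subtype.ext; simp
      map_zero' := by apply Subtype.ext; simp
      map_add' := fun x y => by apply Subtype.ext; simp }
  have hker : ∀ x : 𝓞 k, residue A (τ x) = 0 ↔ x ∈ P := by
    intro x
    rw [residue_eq_zero_iff, ← hA5 x]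
    exact A.valuation_lt_one_iff (τ x)
  let θ₀ : (𝓞 k ⧸ P) →+* ResidueField A :=
    Ideal.Quotient.lift P ((residue A).comp τ) (fun x hx => (hker x).2 hx)
  have hinj : Function.Injective θ₀ := by
    let _ : Field (𝓞 k ⧸ P) := Ideal.Quotient.field P
    exact θ₀.injective
  have hfinP : Finite (𝓞 k ⧸ P) := by
    apply Nat.finite_of_card_ne_zero
    rw [card_P p P hP]
    exact hp.ne_zero
  have hbij : Function.Bijective θ₀ :=
    hinj.bijective_of_nat_card_le (by rw [hA3, Ideal.absNorm_apply, Submodule.cardQuot_apply])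
  let θ : (𝓞 k ⧸ P) ≃+* ResidueField A := RingEquiv.ofBijective θ₀ hbij
  set h : (𝓞 k ⧸ P)[X] :=
    (g'.map (residue A)).map (θ.symm : ResidueField A →+* (𝓞 k ⧸ P)) with hh
  have hθh : h.map (θ : (𝓞 k ⧸ P) →+* ResidueField A) = g'.map (residue A) := by
    rw [hh, Polynomial.map_map]
    have : (θ : (𝓞 k ⧸ P) →+* ResidueField A).comp
        (θ.symm : ResidueField A →+* (𝓞 k ⧸ P)) = RingHom.id _ := by
      ext x
      exact θ.apply_symm_apply x
    rw [this, Polynomial.map_id]
  have hgnat' : g'.natDegree = G.natDegree := by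
    rw [← hGd, ← hg1, natDegree_map_eq_of_injective A.subtype_injective]
  have hh0 : h ≠ 0 := by
    intro h0
    rw [h0, Polynomial.map_zero] at hθh
    exact hg2.ne_zero hθh.symm
  have hhd : h.natDegree ≤ G.natDegree := by
    rw [hh]
    exact natDegree_map_le.trans (natDegree_map_le.trans hgnat'.le)
  refine ⟨{c | GoodT n c ∧ ∀ i, ¬ mon (n i) (c i) ∣ h}, ?_, ?_⟩
  · let inst : Field (𝓞 k ⧸ P) := Ideal.Quotient.field P
    have h1 := @hδ (𝓞 k ⧸ P) inst hfinP (by rw [card_P p _ hP]; exact hqp) h hh0 hhd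
    rw [card_P p _ hP] at h1
    exact h1
  intro a c ha ha2 hcS m F ℓ hℓ hℓp hm hFm hadm
  obtain ⟨hc, hch⟩ := hcS
  have hτa : residue A (τ a) = 0 := (hker a).2 ha
  -- the polynomial `G(a, x)` over `A`
  have hres : ∀ q : A[X], residue A (q.eval (τ a)) = residue A (q.eval 0) := by
    intro q
    have e1 := Polynomial.hom_eval₂ q (RingHom.id A) (residue A) (τ a)
    have e2 := Polynomial.hom_eval₂ q (RingHom.id A) (residue A) 0
    rw [hτa] at e1
    rw [map_zero] at e2
    exact e1.trans e2.symm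
  have hsub : ∀ (q : A[X]) (x : A), ((q.eval x : A) : k) = (q.map A.subtype).eval (x : k) := by
    intro q x
    exact (Polynomial.eval_map_apply A.subtype x).symm
  let Ga : A[X] := G'.map (evalRingHom (τ a))
  have hGa0 : ∀ x : A, (G'.map (evalRingHom x)).map A.subtype = G.map (evalRingHom (x : k)) := by
    intro x
    rw [← hG', Polynomial.map_map, Polynomial.map_map]
    congr 1
    ext q
    · show ((((C q : A[X]).eval x : A)) : k) = ((C q : A[X]).map A.subtype).eval (x : k)
      exact hsub _ _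
    · show ((((X : A[X]).eval x : A)) : k) = ((X : A[X]).map A.subtype).eval (x : k)
      exact hsub _ _
  have hg'G' : g' = G'.map (evalRingHom 0) := by
    apply Polynomial.map_injective A.subtype A.subtype_injective
    rw [hg1, hGa0 0]
    rfl
  have hGak : Ga.map A.subtype = G.map (evalRingHom (a : k)) := hGa0 (τ a)
  have hGar : Ga.map (residue A) = g'.map (residue A) := by
    rw [hg'G']
    show (G'.map (evalRingHom (τ a))).map (residue A) = (G'.map (evalRingHom 0)).map (residue A)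
    ext i
    rw [coeff_map, coeff_map, coeff_map, coeff_map]
    exact hres _
  have hGanat : Ga.natDegree = G.natDegree := by
    apply le_antisymm
    · refine natDegree_map_le.trans ?_
      rw [← hG', natDegree_map_eq_of_injective]
      exact Polynomial.map_injective _ A.subtype_injective
    · rw [← hgnat', ← hg3, ← hGar]
      exact natDegree_map_le
  have hGas : (Ga.map (residue A)).Separable := by
    rw [hGar]
    exact hg2
  have hGad : (Ga.map (residue A)).natDegree = Ga.natDegree := by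
    rw [hGar, hg3, hgnat', hGanat]
  -- the constant
  have hcv : A.valuation (c₁.eval (a : k)) = 1 := by
    have e0 : ((c'.eval 0 : A) : k) = c₁.eval 0 := by
      rw [hsub, hc']
      rfl
    have ea : ((c'.eval (τ a) : A) : k) = c₁.eval (a : k) := by
      rw [hsub, hc']
      rfl
    have e1 : A.valuation (c₁.eval 0) = 1 := by
      have h1 : A.valuation (c₁.eval 0) ≤ 1 := by
        rw [← e0]
        exact (A.valuation_le_one_iff _).2 (c'.eval 0).2
      have h2 : A.valuation (c₁.eval 0)⁻¹ ≤ 1 := (A.valuation_le_one_iff _).2 hcinv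
      rw [map_inv₀] at h2
      have h4 : A.valuation (c₁.eval 0) ≠ 0 := by
        rw [Ne, map_eq_zero]
        exact hc₁
      exact le_antisymm h1 ((inv_le_one₀ (zero_lt_iff.2 h4)).1 h2)
    have e2 : residue A (c'.eval (τ a)) ≠ 0 := by
      rw [hres]
      intro h1
      rw [residue_eq_zero_iff, ValuationSubring.valuation_lt_one_iff, e0, e1] at h1
      exact lt_irrefl _ h1
    have e3 : IsUnit (c'.eval (τ a)) := by
      by_contra h1
      exact e2 ((residue_eq_zero_iff _).2 h1)
    rw [← ea]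
    exact (A.valuation_eq_one_iff _).1 e3
  -- the polynomials over `A` and over the residue field
  let f : r → A[X] := fun i => mon (n i) (fun j => τ (c i j))
  have hfm : ∀ i, (f i).Monic := fun i => mon_monic _ _
  have hfr : ∀ i, (f i).map (residue A) =
      (mon (n i) (fun j => Ideal.Quotient.mk P (c i j))).map
        (θ : (𝓞 k ⧸ P) →+* ResidueField A) := by
    intro i
    rw [mon_map, mon_map]
    rfl
  have hirr : ∀ i, Irreducible ((f i).map (residue A)) := by
    intro i
    rw [hfr]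
    have h1 := hc.1 i
    exact (MulEquiv.irreducible_iff (Polynomial.mapEquiv θ)).2 h1
  have hne : ∀ i j, i ≠ j → (f i).map (residue A) ≠ (f j).map (residue A) := by
    intro i j hij h1
    rw [hfr, hfr] at h1
    exact hc.2 i j hij (Polynomial.map_injective _ θ.injective h1)
  have hndvd : ∀ i, ¬ (f i).map (residue A) ∣ Ga.map (residue A) := by
    intro i h1
    rw [hfr, hGar, ← hθh] at h1
    apply hch i
    exact (map_dvd_iff (Polynomial.mapEquiv θ)).1 h1
  have hfnat : ∀ i, (f i).natDegree = n i := fun i => mon_natDegree _ _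
  have hfrnat : ∀ i, ((f i).map (residue A)).natDegree = n i := fun i => by
    rw [(hfm i).natDegree_map, hfnat]
  have hℓ0 : (ℓ : ResidueField A) ≠ 0 := by
    intro h
    have h0 : ((Nat.card (ResidueField A) : ℕ) : ResidueField A) = 0 := by
      have := Fintype.ofFinite (ResidueField A)
      rw [Nat.card_eq_fintype_card]
      exact Nat.cast_card_eq_zero _
    rw [hA3, hP] at h0
    have h6 : p.Coprime ℓ := (Nat.coprime_primes hp hℓ).2 (Ne.symm hℓp)
    have h7 := Nat.isCoprime_iff_coprime.2 h6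
    obtain ⟨u, v, huv⟩ := h7
    have h8 : ((u * (p : ℕ) + v * (ℓ : ℕ) : ℤ) : ResidueField A) = 1 := by
      rw [huv]; simp
    push_cast at h8
    rw [h0, h] at h8
    simp at h8
  have hPm' : (∏ i, f i).Monic := monic_prod_of_monic _ _ fun i _ => hfm i
  have hPnat : (∏ i, f i).natDegree = ∑ i, n i := by
    rw [natDegree_prod_of_monic _ _ fun i _ => hfm i]
    exact Finset.sum_congr rfl fun i _ => hfnat i
  have hPmap : (∏ i, f i).map (residue A) = ∏ i, (f i).map (residue A) := Polynomial.map_prod _ _ _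
  have hGa00 : Ga ≠ 0 := by
    intro h0
    rw [h0, Polynomial.map_zero] at hGas
    exact hGas.ne_zero rfl
  have hGnat : (Ga * ∏ i, f i).natDegree = G.natDegree + ∑ i, n i := by
    rw [natDegree_mul hGa00 hPm'.ne_zero, hPnat, hGanat]
  have hGmap : (Ga * ∏ i, f i).map (residue A) =
      Ga.map (residue A) * ∏ i, (f i).map (residue A) := by
    rw [Polynomial.map_mul, hPmap]
  refine SUP.local_main A ℓ hℓ hℓ0 (Ga * ∏ i, f i) ?_ ?_ ?_ ?_ F hFm.ne_zero ?_
    ((a : k) * c₁.eval (a : k)) ?_ m hm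
  · rw [hGmap]
    exact separable_mul_prod _ hGas _ hirr (fun i => (hfm i).map _) hne hndvd
  · rw [hGnat, Polynomial.map_mul, natDegree_mul hGas.ne_zero (hPm'.map _).ne_zero, hGad, hGanat,
      hPm'.natDegree_map, hPnat]
  · rw [hGnat]
    exact h3
  · intro x hx
    rw [hGmap, eval_mul] at hx
    rcases mul_eq_zero.1 hx with h1 | h1
    · rw [hGar] at h1
      exact hg4 x h1
    · exact no_root _ hirr (fun i => by rw [hfrnat]; exact hn i) x h1
  · have h1 : (Ga * ∏ i, f i).map A.subtype =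
        G.map (evalRingHom (a : k)) * ∏ i, mon (n i) (fun j => (c i j : k)) := by
      rw [Polynomial.map_mul, hGak, Polynomial.map_prod]
      congr 1
      refine Finset.prod_congr rfl fun i _ => ?_
      rw [mon_map]
      rfl
    rw [h1]
    exact hadm
  · intro b
    rw [hFm.leadingCoeff, mul_one, map_mul, hcv, mul_one]
    exact hA6 a ha ha2 ℓ hℓ.two_le b

end SUU
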