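import Pool.Agent.MP_c1dca2_ag.SUU.U1
import Pool.Agent.MP_c1dca2_ag.SUU.U8
import Pool.Agent.MP_c1dca2_ag.SUU.U9
import Pool.Agent.MP_c1dca2_ag.SUP.E3

/-!
# [SUU-U7] The section conjecture for 100% of all superelliptic curves
-/

set_option autoImplicit false

open Polynomial NumberField IsLocalRing

namespace SUU

variable {k : Type} [Field k] [NumberField k]

theorem main {ι : Type} [Fintype ι] (b : Module.Basis ι ℤ (𝓞 k)) {r : Type} [Fintype r]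
    (n : r → ℕ) (hn : ∀ i, 2 ≤ n i) (G : k[X][X]) (c₁ : k[X]) (hc₁ : c₁.eval 0 ≠ 0)
    (hGd : (G.map (evalRingHom 0)).natDegree = G.natDegree)
    (hsep : (G.map (evalRingHom 0)).Separable) (h3 : 3 ≤ G.natDegree + ∑ i, n i)
    (hσ : (Irreducible (G.map (evalRingHom 0)) ∧ 2 ≤ G.natDegree) ∨
      ∃ σ : (G.map (evalRingHom 0)).SplittingField ≃ₐ[k] (G.map (evalRingHom 0)).SplittingField,
        ∀ x : (G.map (evalRingHom 0)).SplittingField,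
          aeval x (G.map (evalRingHom 0)) = 0 → σ x ≠ x) (ε : ℝ) (hε : 0 < ε) :
    ∃ M : ℕ, ∀ (u : Idx n ι → ℤ) (N : Idx n ι → ℕ), (∀ x, M ≤ N x) →
      (Nat.card {z : Idx n ι → ℤ // (∀ x, u x ≤ z x ∧ z x < u x + N x) ∧
        ¬ SUP.AllSec k (G.map (evalRingHom (aOf b z : k)) *
          ∏ i, mon (n i) (fun j => (cOf b z i j : k))) ((aOf b z : k) * c₁.eval (aOf b z : k))} : ℝ) ≤
        ε * ∏ x, (N x : ℝ) := by
  classical
  have hσ' : ∃ σ : (G.map (evalRingHom 0)).SplittingField ≃ₐ[k]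
      (G.map (evalRingHom 0)).SplittingField,
      ∀ x : (G.map (evalRingHom 0)).SplittingField,
        aeval x (G.map (evalRingHom 0)) = 0 → σ x ≠ x := by
    rcases hσ with h | h
    · exact SUP.exists_derangement _ h.1 hsep (by rw [hGd]; exact h.2)
    · exact h
  obtain ⟨B₀, hB₀, hmod⟩ := exists_models G c₁ (c₁.eval 0)⁻¹
  obtain ⟨δ, hδ, q₀, hq₀⟩ := card_tuples r n hn G.natDegree
  set Q : Set ℕ := {p : ℕ | p.Prime ∧ q₀ ≤ p ∧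
    ∃ P : Ideal (𝓞 k), Ideal.absNorm P = p ∧ P ∉ B₀ ∧ GoodRed (G.map (evalRingHom 0)) P} with hQ
  have hex : ∀ p : ℕ, ∃ P : Ideal (𝓞 k), p ∈ Q → Ideal.absNorm P = p ∧ P ∉ B₀ ∧
      GoodRed (G.map (evalRingHom 0)) P := by
    intro p
    by_cases h : p ∈ Q
    · obtain ⟨P, hP⟩ := h.2.2
      exact ⟨P, fun _ => hP⟩
    · exact ⟨⊥, fun h' => absurd h' h⟩
  choose Pf hPf using hex
  have hexS : ∀ p : ℕ, ∃ S : Set ((i : r) → Fin (n i) → 𝓞 k ⧸ Pf p), p ∈ Q →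
      (δ * ((p : ℝ) ^ ∑ i, n i) ≤ Nat.card S ∧
      ∀ (a : 𝓞 k) (c : (i : r) → Fin (n i) → 𝓞 k), a ∈ Pf p → a ∉ Pf p ^ 2 →
        (fun i j => Ideal.Quotient.mk (Pf p) (c i j)) ∈ S →
        ∀ (m : ℕ) (F : k[X]) (ℓ : ℕ), ℓ.Prime → ℓ ≠ p → ℓ ∣ m → F.Monic →
          SUP.Adm ℓ F (G.map (evalRingHom (a : k)) * ∏ i, mon (n i) (fun j => (c i j : k))) →
          SUP.NoSec k m (C ((a : k) * c₁.eval (a : k)) * F)) := by
    intro p
    by_cases h : p ∈ Q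
    · have hPp : (Pf p).IsPrime :=
        Ideal.isPrime_of_irreducible_absNorm (by rw [(hPf p h).1]; exact h.1)
      obtain ⟨S, hS⟩ := exists_S hn G c₁ hGd hc₁ h3 δ q₀ hq₀ p h.1 h.2.1 (Pf p) (hPf p h).1
        (hPf p h).2.2 (hmod (Pf p) hPp (hPf p h).2.1)
      exact ⟨S, fun _ => hS⟩
    · exact ⟨∅, fun h' => absurd h' h⟩
  choose Sf hSf using hexS
  have hex2 : ∀ p : ℕ, ∃ A : Set (Idx n ι → ZMod (p ^ 2)), p ∈ Q →
      ((Nat.card A : ℝ) ≤ (1 - (δ / 2) / p) * ((p : ℝ) ^ 2) ^ (Fintype.card (Idx n ι)) ∧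
      ∀ z : Idx n ι → ℤ, ¬ GoodZ b (Pf p) (Sf p) z →
        (fun x => (z x : ZMod (p ^ 2))) ∈ A) := by
    intro p
    by_cases h : p ∈ Q
    · obtain ⟨A, hA⟩ := exists_class b δ p h.1 (Pf p) (hPf p h).1 (Sf p) (hSf p h).1
      exact ⟨A, fun _ => hA⟩
    · exact ⟨∅, fun h' => absurd h' h⟩
  choose Sp hSp using hex2
  obtain ⟨Q₁, Q₂, hQ₁, hQ₂, hdis, hs₁, hs₂⟩ := SUP.exists_split Q (fun p hp => hp.1.pos)
    (good_set _ hsep hσ' q₀ B₀ hB₀)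
  let X : Set ℕ → Set (Idx n ι → ℤ) := fun R => {z | ∀ p ∈ R, ¬ GoodZ b (Pf p) (Sf p) z}
  have hd : ∀ R : Set ℕ, R ⊆ Q → ¬ Summable (fun p : R => ((p : ℕ) : ℝ)⁻¹) →
      ∃ M : ℕ, ∀ (u : Idx n ι → ℤ) (N : Idx n ι → ℕ), (∀ x, M ≤ N x) →
      (Nat.card {z : Idx n ι → ℤ // (∀ x, u x ≤ z x ∧ z x < u x + N x) ∧ z ∈ X R} : ℝ) ≤
        (ε / 2) * ∏ x, (N x : ℝ) := by
    intro R hR hRs
    exact banach_zero R (fun p hp => (hR hp).1) hRs (δ / 2) (by positivity) Sp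
      (fun p hp => (hSp p (hR hp)).1) (X R)
      (fun z hz p hp => (hSp p (hR hp)).2 z (hz p hp)) (ε / 2) (by positivity)
  obtain ⟨M₁, hM₁⟩ := hd Q₁ hQ₁ hs₁
  obtain ⟨M₂, hM₂⟩ := hd Q₂ hQ₂ hs₂
  have hsub : ∀ z : Idx n ι → ℤ,
      ¬ SUP.AllSec k (G.map (evalRingHom (aOf b z : k)) *
          ∏ i, mon (n i) (fun j => (cOf b z i j : k))) ((aOf b z : k) * c₁.eval (aOf b z : k)) →
      z ∈ X Q₁ ∨ z ∈ X Q₂ := by
    intro z hz
    by_contra hcon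
    push Not at hcon
    obtain ⟨h1, h2⟩ := hcon
    have h1' : ∃ p ∈ Q₁, GoodZ b (Pf p) (Sf p) z := by
      by_contra h
      push Not at h
      exact h1 h
    have h2' : ∃ p ∈ Q₂, GoodZ b (Pf p) (Sf p) z := by
      by_contra h
      push Not at h
      exact h2 h
    obtain ⟨p, hp, hpz⟩ := h1'
    obtain ⟨q, hq, hqz⟩ := h2'
    have hpq : p ≠ q := by
      rintro rfl
      exact (Set.disjoint_left.1 hdis hp) hq
    apply hz
    intro m F ℓ hℓ hm hFm hadm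
    by_cases h : ℓ = p
    · exact (hSf q (hQ₂ hq)).2 _ _ hqz.1 hqz.2.1 hqz.2.2 m F ℓ hℓ (by rw [h]; exact hpq) hm hFm
        hadm
    · exact (hSf p (hQ₁ hp)).2 _ _ hpz.1 hpz.2.1 hpz.2.2 m F ℓ hℓ h hm hFm hadm
  refine ⟨max M₁ M₂, fun u N hN => ?_⟩
  have hbox : {z : Idx n ι → ℤ | ∀ x, u x ≤ z x ∧ z x < u x + N x}.Finite := by
    refine Set.Finite.subset (Fintype.piFinset
      (fun x : Idx n ι => Finset.Ico (u x) (u x + N x))).finite_toSet ?_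
    intro c hc
    simp only [Finset.mem_coe, Fintype.mem_piFinset, Finset.mem_Ico]
    exact hc
  have h1 : Nat.card {z : Idx n ι → ℤ // (∀ x, u x ≤ z x ∧ z x < u x + N x) ∧
        ¬ SUP.AllSec k (G.map (evalRingHom (aOf b z : k)) *
          ∏ i, mon (n i) (fun j => (cOf b z i j : k))) ((aOf b z : k) * c₁.eval (aOf b z : k))} ≤
      Nat.card {z : Idx n ι → ℤ // (∀ x, u x ≤ z x ∧ z x < u x + N x) ∧ z ∈ X Q₁} +
      Nat.card {z : Idx n ι → ℤ // (∀ x, u x ≤ z x ∧ z x < u x + N x) ∧ z ∈ X Q₂} := by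
    have h2 : {z : Idx n ι → ℤ | (∀ x, u x ≤ z x ∧ z x < u x + N x) ∧
        ¬ SUP.AllSec k (G.map (evalRingHom (aOf b z : k)) *
          ∏ i, mon (n i) (fun j => (cOf b z i j : k))) ((aOf b z : k) * c₁.eval (aOf b z : k))} ⊆
        {z : Idx n ι → ℤ | (∀ x, u x ≤ z x ∧ z x < u x + N x) ∧ z ∈ X Q₁} ∪
        {z : Idx n ι → ℤ | (∀ x, u x ≤ z x ∧ z x < u x + N x) ∧ z ∈ X Q₂} := by
      rintro z ⟨hz1, hz2⟩
      rcases hsub z hz2 with h | h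
      · exact Or.inl ⟨hz1, h⟩
      · exact Or.inr ⟨hz1, h⟩
    have hf : ∀ R, {z : Idx n ι → ℤ | (∀ x, u x ≤ z x ∧ z x < u x + N x) ∧ z ∈ X R}.Finite :=
      fun R => hbox.subset fun z hz => hz.1
    exact (Set.ncard_le_ncard h2 ((hf Q₁).union (hf Q₂))).trans (Set.ncard_union_le _ _)
  have e1 := hM₁ u N (fun x => (le_max_left _ _).trans (hN x))
  have e2 := hM₂ u N (fun x => (le_max_right _ _).trans (hN x))
  have h1r : (Nat.card {z : Idx n ι → ℤ // (∀ x, u x ≤ z x ∧ z x < u x + N x) ∧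
        ¬ SUP.AllSec k (G.map (evalRingHom (aOf b z : k)) *
          ∏ i, mon (n i) (fun j => (cOf b z i j : k))) ((aOf b z : k) * c₁.eval (aOf b z : k))} : ℝ) ≤
      (Nat.card {z : Idx n ι → ℤ // (∀ x, u x ≤ z x ∧ z x < u x + N x) ∧ z ∈ X Q₁} : ℝ) +
      (Nat.card {z : Idx n ι → ℤ // (∀ x, u x ≤ z x ∧ z x < u x + N x) ∧ z ∈ X Q₂} : ℝ) := by
    exact_mod_cast h1
  linarith

end SUU
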